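import Pool.Agent.H67.AG.Defs

/-!
ABSOLUTE GAP (`MP_c59857_nt`): targets for section 3 of `H67_gap.md` (averages over primes).
-/

set_option autoImplicit false

open MeasureTheory ProbabilityTheory Filter Topology Finset
open scoped Nat ENNReal

namespace Pool.Agent.H67.AG

open Pool.Agent.H24.T2 (Pset)

/-- UL: limits along ultrafilters of bounded sequences. -/
def T_UL : Prop := ∀ (U : Ultrafilter ℕ),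
  (∀ (f : ℕ → ℝ), (∃ C, ∀ n, |f n| ≤ C) → Tendsto f (U : Filter ℕ) (𝓝 (ul U f))) ∧
  (∀ (f g : ℕ → ℝ), (∃ C, ∀ n, |f n| ≤ C) → (∃ C, ∀ n, |g n| ≤ C) →
    (∀ᶠ n in (U : Filter ℕ), f n ≤ g n) → ul U f ≤ ul U g) ∧
  (∀ (f g : ℕ → ℝ), (∃ C, ∀ n, |f n| ≤ C) → (∃ C, ∀ n, |g n| ≤ C) →
    ul U (fun n => f n + g n) = ul U f + ul U g) ∧
  (∀ (f : ℕ → ℝ) (a : ℝ), (∃ C, ∀ n, |f n| ≤ C) → ul U (fun n => a * f n) = a * ul U f) ∧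
  ∀ a : ℝ, ul U (fun _ => a) = a

/-- PN: there are many primes in the progressions `1 (mod W)`, compared with a progression of a
smaller modulus. -/
def T_PN : Prop := ∀ Q W : ℕ, 0 < W → Q ∣ W → ∃ c : ℝ, 0 < c ∧ ∃ m₀ : ℕ, ∀ m, m₀ ≤ m →
  c * ((Pset Q m).card : ℝ) ≤ (Pset W m).card ∧ 0 < (Pset W m).card

/-- V: exponential sums over primes. -/
def T_V : Prop := ∀ (w W : ℕ) (ph : ℝ), 0 < w → 0 < W → w ! ∣ W → (∀ n : ℤ, ph ≠ n) →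
  ∀ ε : ℝ, 0 < ε → ∃ m₀ : ℕ, ∀ m, m₀ ≤ m →
    ‖∑ p ∈ Pset W m, Complex.exp (2 * Real.pi * Complex.I * (ph * ((p - 1) / W : ℕ)))‖ ≤
      (1 / w + ε) * (Pset W m).card

/-- HER: spectral measures. -/
def T_HER : Prop := ∀ (Ω : Type) [MeasurableSpace Ω] (P : Measure Ω) [IsProbabilityMeasure P]
  (T : Ω ≃ᵐ Ω) (b : ℕ) (f : Ω → ℝ), MeasurePreserving T P P → Measurable f →
  (∀ ω, |f ω| ≤ 1) → ∃ ν : Measure (Set.Ico (0 : ℝ) 1), IsFiniteMeasure ν ∧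
    (∀ (s : Finset ℕ) (a : ℕ → ℂ), ∫ ω, ‖∑ n ∈ s, a n * (f (T^[b * n] ω) : ℂ)‖ ^ 2 ∂P =
      ∫ x, ‖∑ n ∈ s, a n * Complex.exp (2 * Real.pi * Complex.I * ((x : ℝ) * n))‖ ^ 2 ∂ν) ∧
    ν.real {x | (x : ℝ) = 0} = ∫ ω, ((P[f | Inv T b]) ω) ^ 2 ∂P

/-- AVP: averages over primes of the iterates, for functions without invariant part. -/
def T_AVP : Prop := ∀ (Ω : Type) [MeasurableSpace Ω] (P : Measure Ω) [IsProbabilityMeasure P]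
  (T : Ω ≃ᵐ Ω) (w W b : ℕ) (f : Ω → ℝ) (ε : ℝ), MeasurePreserving T P P → Measurable f →
  (∀ ω, |f ω| ≤ 1) → 0 < w → 0 < W → w ! ∣ W → 0 < b → P[f | Inv T (W * b)] =ᵐ[P] 0 →
  0 < ε → ∃ m₀ : ℕ, ∀ m, m₀ ≤ m →
    ∫ ω, (avgP W m fun p => f (T^[(p - 1) * b] ω)) ^ 2 ∂P ≤
      1 / (w : ℝ) ^ 2 * ∫ ω, f ω ^ 2 ∂P + ε

/-- PI: pair independence. -/
def T_PI : Prop := ∀ (Ω : Type) [MeasurableSpace Ω] (P : Measure Ω) [IsProbabilityMeasure P]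
  (T : Ω ≃ᵐ Ω) (w W a b d : ℕ) (ps f g : Ω → ℝ) (ε : ℝ), MeasurePreserving T P P →
  Measurable[Inv T W] ps → (∀ ω, 0 ≤ ps ω ∧ ps ω ≤ 1) → Measurable f → (∀ ω, |f ω| ≤ 1) →
  Measurable g → (∀ ω, |g ω| ≤ 1) → 0 < w → 0 < W → w ! ∣ W → a ≠ b →
  ((a : ℤ) - b).natAbs ∣ d → 0 < d → 0 < ε → ∃ m₀ : ℕ, ∀ m, m₀ ≤ m →
    |(avgP W m fun p => ∫ ω, ps ω * f (T^[(p - 1) * a] ω) * g (T^[(p - 1) * b] ω) ∂P) -
      ∫ ω, ps ω * (P[f | Inv T W]) ω * (P[g | Inv T W]) ω ∂P| ≤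
    ∫ ω, ps ω * |(P[f | Inv T (W * d)]) ω - (P[f | Inv T W]) ω| ∂P +
      1 / (w : ℝ) * ∫ ω, ps ω ∂P + ε

/-- the number of prime cubes with given sides -/
def cubn (W m d : ℕ) (t : Fin d → ℤ) : ℕ :=
  ((Pset W m).filter fun p : ℕ => ∀ ω : Finset (Fin d),
    ∃ p' ∈ Pset W m, (p' : ℤ) = (p : ℤ) + W * ∑ i ∈ ω, t i).card

/-- CUB: second moment of the number of prime cubes. -/
def T_CUB : Prop := ∀ W d : ℕ, 0 < W → Even W → ∃ C : ℝ, 0 < C ∧ ∃ m₀ : ℕ, ∀ m, m₀ ≤ m →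
  ∑ t ∈ Fintype.piFinset (fun _ : Fin d => Finset.Icc (-(2 ^ m : ℤ)) (2 ^ m)),
    (cubn W m d t : ℝ) ^ 2 ≤
    C * (2 ^ m : ℝ) ^ d * ((2 ^ m : ℝ) * (((Pset W m).card : ℝ) / 2 ^ m) ^ (2 ^ d)) ^ 2

/-- P3: the step of the tower which controls the averages over primes. -/
def T_P3 : Prop := ∀ (X : Type) [MeasurableSpace X] [StandardBorelSpace X] (μ : Measure X)
  [IsProbabilityMeasure μ] (T : X ≃ᵐ X) (k W : ℕ) (β : Fin k → ℕ) (l : Fin k) (f₀ : X → ℝ)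
  (ε : ℝ), Ergodic T μ → Function.Injective β → 0 < W → Even W → Measurable f₀ →
  (∀ x, |f₀ x| ≤ 1) → μ[f₀ | (tow μ T (k - 1)).1] =ᵐ[μ] 0 → 0 < ε →
  ∃ m₀ : ℕ, ∀ m, m₀ ≤ m → ∀ f : Fin k → X → ℝ, (∀ i, Measurable (f i)) →
    (∀ i x, |f i x| ≤ 1) → f l = f₀ →
    |avgP W m fun p => ∫ x, ∏ i, f i (T^[(p - 1) * β i] x) ∂μ| ≤ ε

end Pool.Agent.H67.AG
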