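import Pool.Agent.H67.AG.Defs

/-!
ABSOLUTE GAP (`MP_c59857_nt`): targets for section 6 of `H67_gap.md` (the switching lemma).
-/

set_option autoImplicit false

open MeasureTheory ProbabilityTheory Filter Topology Finset
open scoped Nat ENNReal

namespace Pool.Agent.H67.AG

open Pool.Agent.H24.T2 (Pset)

/-- the reference system with `n` tuples -/
structure Sw where
  k : ℕ
  β : Fin k → ℕ
  inj : Function.Injective β
  σ : ℝ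
  σv : σ = 1 ∨ σ = -1
  w : ℕ
  W : ℕ
  hw : 0 < w
  hW : 0 < W
  hd : w ! ∣ W
  U : Ultrafilter ℕ
  hU : (U : Filter ℕ) ≤ atTop
  Ω' : Type
  [mΩ' : MeasurableSpace Ω']
  P' : Measure Ω'
  [pP' : IsProbabilityMeasure P']
  T' : Ω' ≃ᵐ Ω'
  mp' : MeasurePreserving T' P' P'
  n : ℕ
  y : Fin n → Fin k → Ω' → ℝ
  hy : ∀ b, Tup (y b)

namespace Sw

variable (d : Sw)

instance : MeasurableSpace d.Ω' := d.mΩ'
instance : IsProbabilityMeasure d.P' := d.pP'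

/-- product of two reference values -/
def gg (a b : Fin d.n) (i : Fin d.k) (ω : d.Ω') : ℝ := d.y a i ω * d.y b i ω

/-- the product of the reference values with the indices `j` -/
def FF (p : ℕ) (j : Fin d.k → Fin d.n) (ω : d.Ω') : ℝ :=
  ∏ i, d.y (j i) i (d.T'^[(p - 1) * d.β i] ω)

end Sw

/-- an extension of the reference system with a selection of a reference -/
structure SwE (d : Sw) where
  Ω : Type
  [mΩ : MeasurableSpace Ω]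
  P : Measure Ω
  [pP : IsProbabilityMeasure P]
  T : Ω ≃ᵐ Ω
  mp : MeasurePreserving T P P
  g : Ω → d.Ω'
  fac : Fac P T d.P' d.T' g
  s : Ω → Fin d.n
  sm : Measurable s

namespace SwE

variable {d : Sw} (e : SwE d)

instance : MeasurableSpace e.Ω := e.mΩ
instance : IsProbabilityMeasure e.P := e.pP

/-- the reference `b` on the extension -/
def yb (b : Fin d.n) (i : Fin d.k) (ω : e.Ω) : ℝ := d.y b i (e.g ω)

/-- the tuple with the index which is selected at the time `t` -/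
def yt (t : ℕ) (i : Fin d.k) (ω : e.Ω) : ℝ := d.y (e.s (e.T^[d.W * t] ω)) i (e.g ω)

/-- the selected tuple -/
def ys (i : Fin d.k) (ω : e.Ω) : ℝ := d.y (e.s ω) i (e.g ω)

open Classical in
/-- the selection changes between the times `0` and `l` -/
noncomputable def mv (l : ℕ) (ω : e.Ω) : ℝ := if e.s (e.T^[d.W * l] ω) = e.s ω then 0 else 1

/-- the defect of the asymptotic invariance of the products, on the set `A` -/
noncomputable def E2 (L : ℕ) (A : Set e.Ω) : ℝ :=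
  ∑ j : Fin d.k → Fin d.n, ul (hyperfilter ℕ) fun L'' => ul d.U fun m => avgP d.W m fun p =>
    ∫ ω in A, |Av d.T' d.W L (d.FF p j) (e.g ω) - Av d.T' d.W L'' (d.FF p j) (e.g ω)| ∂e.P

/-- the bound for the errors of the pairs, on the set `A` -/
noncomputable def E3 (L : ℕ) (i : Fin d.k) (A : Set e.Ω) : ℝ :=
  4 / (L : ℝ) * ∑ l ∈ range L, ∫ ω in A, e.mv (Dlt d.β * l) ω ∂e.P +
  2 / (Dlt d.β : ℝ) * ∑ r ∈ range (Dlt d.β), ∫ ω in A, e.mv r ω ∂e.P +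
  ∑ a, ∑ b, ∫ ω in A, |Av d.T' (d.W * Dlt d.β) L (d.gg a b i) (e.g ω) -
    (d.P'[d.gg a b i | Inv d.T' d.W]) (e.g ω)| ∂e.P

/-- the bound for the dichotomy of `ys` and `yt t`, on the set `A` -/
noncomputable def EE (L L₂ : ℕ) (A : Set e.Ω) : ℝ :=
  2 * Lam d.U d.W e.P e.T d.β d.σ e.ys A +
  2 * d.k / (L : ℝ) * ∑ l ∈ range L, ∫ ω in A, e.mv l ω ∂e.P + e.E2 L A +
  d.k * ∑ i, e.E3 L₂ i A + (d.k : ℝ) ^ 2 / d.w * e.P.real A

end SwE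

/-- S1: the products are asymptotically invariant in mean square. -/
def T_S1 : Prop := ∀ (d : Sw) (ε : ℝ), 0 < ε → ∃ L : ℕ, 0 < L ∧ ∀ L'' : ℕ, L ≤ L'' →
  ∀ j : Fin d.k → Fin d.n, ul d.U (fun m => avgP d.W m fun p =>
    ∫ ω, (Av d.T' d.W L (d.FF p j) ω - Av d.T' d.W L'' (d.FF p j) ω) ^ 2 ∂d.P') ≤ ε

/-- S2: the relation holds for the shifted selection, uniformly in the shift. -/
def T_S2 : Prop := ∀ (d : Sw) (e : SwE d) (L t : ℕ) (A : Set e.Ω), 0 < L →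
  MeasurableSet[Inv e.T d.W] A →
  Lam d.U d.W e.P e.T d.β d.σ (e.yt t) A ≤ Lam d.U d.W e.P e.T d.β d.σ e.ys A +
    2 * d.k / (L : ℝ) * ∑ l ∈ range L, ∫ ω in A, e.mv l ω ∂e.P + e.E2 L A

/-- S3: errors of the pairs, uniformly in the shift. -/
def T_S3 : Prop := ∀ (d : Sw) (e : SwE d) (L t : ℕ) (i : Fin d.k) (A : Set e.Ω), 0 < L →
  MeasurableSet[Inv e.T d.W] A →
  ∫ ω in A, |(e.P[dl e.ys (e.yt t) i | Inv e.T (d.W * Dlt d.β)]) ω -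
    (e.P[dl e.ys (e.yt t) i | Inv e.T d.W]) ω| ∂e.P ≤ e.E3 L i A

/-- S3b: the dichotomy for the shifted selection, with an additive bound. -/
def T_S3b : Prop := ∀ (d : Sw) (e : SwE d) (L L₂ t : ℕ) (A : Set e.Ω), 0 < L → 0 < L₂ →
  MeasurableSet[Inv e.T d.W] A →
  ∫ ω in A, (Mis e.P (Inv e.T d.W) e.ys (e.yt t) ω - Mis e.P (Inv e.T d.W) e.ys (e.yt t) ω ^ 2) ∂e.P
    ≤ e.EE L L₂ A

/-- S4: a path with small steps does not cross the gap (abstract form). -/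
def T_S4 : Prop := ∀ (Ω : Type) (m : MeasurableSpace Ω) [mΩ : MeasurableSpace Ω] (P : Measure Ω)
  [IsProbabilityMeasure P] (M : ℕ → Ω → ℝ) (s₀ : Ω → ℝ) (E : Set Ω → ℝ) (A : Set Ω), m ≤ mΩ →
  (∀ t, Measurable[m] (M t)) → (∀ t, Integrable (M t) P) →
  (∀ t, Integrable (fun ω => M t ω ^ 2) P) → Measurable[m] s₀ → MeasurableSet[m] A →
  (∀ᵐ ω ∂P, M 0 ω = 0) → (∀ t, ∀ᵐ ω ∂P, |M (t + 1) ω - M t ω| ≤ s₀ ω) →
  (∀ B, MeasurableSet[m] B → 0 ≤ E B) →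
  (∀ B B', MeasurableSet[m] B → MeasurableSet[m] B' → Disjoint B B' → E (B ∪ B') = E B + E B') →
  (∀ t B, MeasurableSet[m] B → ∫ ω in B, (M t ω - M t ω ^ 2) ∂P ≤ E B) →
  P.real (A ∩ {ω | s₀ ω ≤ 1 / 100 ∧ ∃ t, 113 / 1000 < M t ω}) ≤ 10 * E A

/-- S4b: the bound is additive and the steps are small. -/
def T_S4b : Prop := ∀ (d : Sw) (e : SwE d) (L L₂ : ℕ), 0 < L → 0 < L₂ →
  (∀ B, MeasurableSet B → 0 ≤ e.EE L L₂ B) ∧
  (∀ B B', MeasurableSet B → MeasurableSet B' → Disjoint B B' →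
    e.EE L L₂ (B ∪ B') = e.EE L L₂ B + e.EE L L₂ B') ∧
  (∀ᵐ ω ∂e.P, Mis e.P (Inv e.T d.W) e.ys (e.yt 0) ω = 0) ∧
  ∀ t, ∀ᵐ ω ∂e.P, |Mis e.P (Inv e.T d.W) e.ys (e.yt (t + 1)) ω -
    Mis e.P (Inv e.T d.W) e.ys (e.yt t) ω| ≤ d.k * (e.P[e.mv 1 | Inv e.T d.W]) ω

/-- S5: average over the shift. -/
def T_S5 : Prop := ∀ (d : Sw) (e : SwE d), ∀ᵐ ω ∂e.P,
  (∀ t, Mis e.P (Inv e.T d.W) e.ys (e.yt t) ω ≤ 113 / 1000) →
    ∃ b, Mis e.P (Inv e.T d.W) e.ys (e.yb b) ω ≤ 113 / 1000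

/-- S6: the parameters. -/
def T_S6 : Prop := ∀ (d : Sw) (η : ℝ), 0 < η →
  ∑ a, ∑ b, ∑ i, ∫ ω, |(d.P'[d.gg a b i | Inv d.T' (d.W * Dlt d.β)]) ω -
    (d.P'[d.gg a b i | Inv d.T' d.W]) ω| ∂d.P' ≤ η → (d.k : ℝ) ^ 2 / d.w ≤ η →
  ∃ L L₂ L₁ : ℕ, 0 < L ∧ 0 < L₂ ∧ ∀ e : SwE d,
    (∀ l ≤ L₁, e.P.real {ω | e.s (e.T^[d.W * l] ω) ≠ e.s ω} ≤ η) →
    (∀ A : Set e.Ω, MeasurableSet A → e.EE L L₂ A ≤
      2 * Lam d.U d.W e.P e.T d.β d.σ e.ys A + 12 * ((d.k : ℝ) + 1) ^ 2 * η) ∧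
    e.P.real {ω | 1 / 100 < d.k * (e.P[e.mv 1 | Inv e.T d.W]) ω} ≤ 100 * d.k * η

/-- SW: the switching lemma. -/
def T_SW : Prop := ∀ (d : Sw) (η : ℝ), 0 < η →
  ∑ a, ∑ b, ∑ i, ∫ ω, |(d.P'[d.gg a b i | Inv d.T' (d.W * Dlt d.β)]) ω -
    (d.P'[d.gg a b i | Inv d.T' d.W]) ω| ∂d.P' ≤ η → (d.k : ℝ) ^ 2 / d.w ≤ η →
  ∃ L₁ : ℕ, ∀ e : SwE d, (∀ l ≤ L₁, e.P.real {ω | e.s (e.T^[d.W * l] ω) ≠ e.s ω} ≤ η) →
    ∀ A : Set e.Ω, MeasurableSet[Inv e.T d.W] A →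
      e.P.real (A ∩ {ω | ∀ b, 113 / 1000 < Mis e.P (Inv e.T d.W) e.ys (e.yb b) ω}) ≤
        20 * Lam d.U d.W e.P e.T d.β d.σ e.ys A + 300 * ((d.k : ℝ) + 1) ^ 2 * η

end Pool.Agent.H67.AG
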