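import Pool.Agent.H67.AG.Defs

/-!
ABSOLUTE GAP (`MP_c59857_nt`): targets for the sections 4, 5, 8 of `H67_gap.md`
(dichotomy, first step, last step).
-/

set_option autoImplicit false

open MeasureTheory ProbabilityTheory Filter Topology Finset
open scoped Nat ENNReal

namespace Pool.Agent.H67.AG

open Pool.Agent.H24.T2 (Pset)

/-! ### Section 4 -/

/-- DW: the dichotomy for a fixed modulus. -/
def T_DW : Prop := ∀ (Ω : Type) [MeasurableSpace Ω] (P : Measure Ω) [IsProbabilityMeasure P]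
  (T : Ω ≃ᵐ Ω) (k : ℕ) (β : Fin k → ℕ) (σ : ℝ) (w W : ℕ) (U : Ultrafilter ℕ)
  (y y' : Fin k → Ω → ℝ) (A : Set Ω), MeasurePreserving T P P → Function.Injective β →
  (σ = 1 ∨ σ = -1) → 0 < w → 0 < W → w ! ∣ W → (U : Filter ℕ) ≤ atTop → Tup y → Tup y' →
  MeasurableSet[Inv T W] A →
  ∫ ω in A, (Mis P (Inv T W) y y' ω - Mis P (Inv T W) y y' ω ^ 2) ∂P ≤
    Lam U W P T β σ y A + Lam U W P T β σ y' A +
    k * ∑ i, ∫ ω in A, |(P[dl y y' i | Inv T (W * Dlt β)]) ω - (P[dl y y' i | Inv T W]) ω| ∂P +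
    (k : ℝ) ^ 2 / w * P.real A

/-- ER: the density of the errors. -/
def T_ER : Prop := ∀ c : Ctx, ∃ e : c.X → ℝ, Measurable[Rt c.T] e ∧ (∀ x, 0 ≤ e x ∧ e x ≤ 1) ∧
  ∫ x in c.Y, e x ∂c.μ ≤ κ₀ * c.μ.real c.Y ∧
  ∀ ψ : c.X → ℝ, Measurable[Rt c.T] ψ → (∀ x, |ψ x| ≤ 1) →
    Tendsto (fun w => ul (c.U w) fun m => avgP (c.Q * w !) m fun p =>
      ∫ x in c.Y ∩ bd c.T c.β c.σ (fun i x => c.D (c.T^[c.β i] x)) p, ψ x ∂c.μ)
      (c.V : Filter ℕ) (𝓝 (∫ x in c.Y, ψ x * e x ∂c.μ))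

/-- LE: the limit of the errors on a joint system. -/
def T_LE : Prop := ∀ (c : CtxE) (Ω : Type) [MeasurableSpace Ω] (P : Measure Ω)
  [IsProbabilityMeasure P] (T : Ω ≃ᵐ Ω) (g : Ω → c.X) (A : Set Ω), MeasurePreserving T P P →
  Fac P T c.μ c.T g → MeasurableSet[Rt T] A → A ⊆ g ⁻¹' c.Y →
  Tendsto (fun w => Lam (c.U w) (c.W w) P T c.β c.σ (fun i ω => c.Dt i (g ω)) A) (c.V : Filter ℕ)
    (𝓝 (∫ ω in A, c.e (g ω) ∂P))

/-- RA: a test for inequalities between rational functions. -/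
def T_RA : Prop := ∀ (Ω : Type) [MeasurableSpace Ω] (P : Measure Ω) [IsProbabilityMeasure P]
  (T : Ω ≃ᵐ Ω) (Q : ℕ) (F : Ω → ℝ) (B : Set Ω), 0 < Q → Measurable[Rt T] F →
  Integrable F P → MeasurableSet[Inv T Q] B →
  (∀ (w : ℕ) (A : Set Ω), MeasurableSet[Inv T (Q * w !)] A → A ⊆ B → ∫ ω in A, F ω ∂P ≤ 0) →
  ∀ᵐ ω ∂P, ω ∈ B → F ω ≤ 0

/-- DR: the dichotomy for the rational sets. -/
def T_DR : Prop := ∀ (c : CtxE) (P : Measure (c.X × c.X)) [IsProbabilityMeasure P],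
  MeasurePreserving (TT c.T) P P → MeasurePreserving Prod.fst P c.μ →
  MeasurePreserving Prod.snd P c.μ →
  ∀ᵐ q ∂P, q.1 ∈ c.Y → q.2 ∈ c.Y →
    Mis P (Rt (TT c.T)) c.D1 c.D2 q - Mis P (Rt (TT c.T)) c.D1 c.D2 q ^ 2 ≤ c.e q.1 + c.e q.2

/-- TRI: triangle inequality for the mismatch. -/
def T_TRI : Prop := ∀ (Ω : Type) (m : MeasurableSpace Ω) [mΩ : MeasurableSpace Ω] (P : Measure Ω)
  [IsProbabilityMeasure P] (k : ℕ) (y y' y'' : Fin k → Ω → ℝ), m ≤ mΩ → Tup y → Tup y' → Tup y'' →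
  (∀ᵐ ω ∂P, Mis P m y y'' ω ≤ Mis P m y y' ω + Mis P m y' y'' ω) ∧
  (∀ᵐ ω ∂P, Mis P m y y' ω = Mis P m y' y ω) ∧ ∀ᵐ ω ∂P, 0 ≤ Mis P m y y' ω ∧ Mis P m y y' ω ≤ k

/-- MN: naturality of the mismatch. -/
def T_MN : Prop := ∀ (Ω Ω' : Type) [MeasurableSpace Ω] [MeasurableSpace Ω'] (P : Measure Ω)
  [IsProbabilityMeasure P] (P' : Measure Ω') [IsProbabilityMeasure P'] (T : Ω ≃ᵐ Ω)
  (T' : Ω' ≃ᵐ Ω') (g : Ω → Ω') (k : ℕ) (y y' : Fin k → Ω' → ℝ), MeasurePreserving T P P →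
  MeasurePreserving T' P' P' → Fac P T P' T' g → Tup y → Tup y' →
  (∀ W : ℕ, ∀ᵐ ω ∂P, Mis P (Inv T W) (fun i ω => y i (g ω)) (fun i ω => y' i (g ω)) ω =
    Mis P' (Inv T' W) y y' (g ω)) ∧
  ∀ᵐ ω ∂P, Mis P (Rt T) (fun i ω => y i (g ω)) (fun i ω => y' i (g ω)) ω =
    Mis P' (Rt T') y y' (g ω)

/-- MC: change of measure for the mismatch. -/
def T_MC : Prop := ∀ (Ω : Type) [MeasurableSpace Ω] (P ν : Measure Ω) [IsProbabilityMeasure P]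
  [IsProbabilityMeasure ν] (T : Ω ≃ᵐ Ω) (k : ℕ) (y y' : Fin k → Ω → ℝ), MeasurePreserving T P P →
  MeasurePreserving T ν ν → ν ≪ P → Tup y → Tup y' →
  (∀ W : ℕ, ∀ᵐ ω ∂ν, Mis ν (Inv T W) y y' ω = Mis P (Inv T W) y y' ω) ∧
  ∀ᵐ ω ∂ν, Mis ν (Rt T) y y' ω = Mis P (Rt T) y y' ω

/-- ERC: from the data to the data with the density of the errors. -/
def T_ERC : Prop := ∀ c : Ctx, ∃ c' : CtxE, c'.toCtx = c

/-! ### Section 5 -/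

namespace CtxE

variable (c : CtxE)

/-- the conditional expectation of the tuple over the tower -/
noncomputable def Db (i : Fin c.k) (x : c.X) : ℝ :=
  max (-1) (min 1 ((c.μ[c.Dt i | (tow c.μ c.T (c.k - 1)).1]) x))

/-- the conditional variance -/
noncomputable def aa (i : Fin c.k) (x : c.X) : ℝ := 1 - c.Db i x ^ 2

/-- the sum over a subset of the indices, conditioned on `m` -/
noncomputable def VI (m : MeasurableSpace c.X) (I : Finset (Fin c.k)) (x : c.X) : ℝ :=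
  ∑ i ∈ I, (c.μ[c.aa i | m]) x

end CtxE

/-- A0: the relation for the conditional expectations. -/
def T_A0 : Prop := ∀ (c : CtxE), 2 ≤ c.k → ∀ (w : ℕ) (A : Set c.X),
  MeasurableSet[Inv c.T (c.W w)] A →
  (1 : ℝ) * c.μ.real A - 2 * Lam (c.U w) (c.W w) c.μ c.T c.β c.σ c.Dt A =
    c.σ * ul (c.U w) fun m => avgP (c.W w) m fun p =>
      ∫ x in A, ∏ i, c.Db i (c.T^[(p - 1) * c.β i] x) ∂c.μ

/-- A1: the inequality for the conditional variances, fixed modulus. -/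
def T_A1 : Prop := ∀ (c : CtxE), 2 ≤ c.k → ∀ (w : ℕ) (I : Finset (Fin c.k)) (A : Set c.X),
  0 < w → MeasurableSet[Inv c.T (c.W w)] A →
  ∫ x in A, (c.VI (Inv c.T (c.W w)) I x - c.VI (Inv c.T (c.W w)) I x ^ 2 / 2) ∂c.μ ≤
    4 * Lam (c.U w) (c.W w) c.μ c.T c.β c.σ c.Dt A +
    c.k * ∑ i, ∫ x, |(c.μ[c.aa i | Inv c.T (c.W w * Dlt c.β)]) x -
      (c.μ[c.aa i | Inv c.T (c.W w)]) x| ∂c.μ + (c.k : ℝ) ^ 2 / w

/-- A2: the inequality for the conditional variances, rational sets. -/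
def T_A2 : Prop := ∀ (c : CtxE), 2 ≤ c.k → ∀ I : Finset (Fin c.k), ∀ᵐ x ∂c.μ, x ∈ c.Y →
  c.VI (Rt c.T) I x - c.VI (Rt c.T) I x ^ 2 / 2 ≤ 4 * c.e x

/-- A3: finite combinatorics. -/
def T_A3 : Prop := ∀ (k : ℕ) (a : Fin k → ℝ), (∀ i, 0 ≤ a i ∧ a i ≤ 1) →
  (∀ I : Finset (Fin k), ∑ i ∈ I, a i - (∑ i ∈ I, a i) ^ 2 / 2 ≤ 16 * κ₀) →
  ∑ i, a i ≤ 17 * κ₀

/-- CA: the first step. -/
def T_CA : Prop := ∀ c : CtxE, 2 ≤ c.k → c.CP (tow c.μ c.T (c.k - 1))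

/-- CB: the descent. -/
def T_CB : Prop := ∀ (c : CtxE) (Z : SA c.X), InvZ c.T Z → c.CP (nxt c.μ c.T Z) → c.CP Z

/-! ### Section 8 -/

/-- JT: the self-joining over the trivial σ-algebra. -/
def T_JT : Prop := ∀ (X : Type) [MeasurableSpace X] [StandardBorelSpace X] (μ : Measure X)
  [IsProbabilityMeasure μ], JJ μ (triv X) = μ.prod μ

/-- CL: the classes of positive measure of an equivalence relation. -/
def T_CL : Prop := ∀ (X : Type) [MeasurableSpace X] [StandardBorelSpace X] (μ : Measure X)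
  [IsProbabilityMeasure μ] (R : Set (X × X)) (c₀ : ℝ), MeasurableSet R → 0 < c₀ →
  (∀ᵐ q ∂(μ.prod μ), q ∈ R → q.swap ∈ R) →
  (∀ᵐ q ∂(μ.prod (μ.prod μ)), (q.1, q.2.1) ∈ R → (q.2.1, q.2.2) ∈ R → (q.1, q.2.2) ∈ R) →
  ∃ (r : ℕ) (C : Fin r → Set X), (∀ a, MeasurableSet (C a) ∧ c₀ ≤ μ.real (C a)) ∧
    (Pairwise fun a b => Disjoint (C a) (C b)) ∧
    ∀ᵐ q ∂(μ.prod μ), (q ∈ R ∧ c₀ ≤ μ.real {x' | (q.1, x') ∈ R} ∧
      c₀ ≤ μ.real {x' | (q.2, x') ∈ R}) ↔ ∃ a, q.1 ∈ C a ∧ q.2 ∈ C a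

/-- PM: the map permutes the classes approximately. -/
def T_PM : Prop := ∀ (X : Type) [MeasurableSpace X] (μ : Measure X) [IsProbabilityMeasure μ]
  (T : X ≃ᵐ X) (r : ℕ) (C : Fin r → Set X) (c₀ ε : ℝ), MeasurePreserving T μ μ → 0 < c₀ →
  0 < ε → 20 * ε ≤ c₀ ^ 2 → (∀ a, MeasurableSet (C a) ∧ c₀ ≤ μ.real (C a)) →
  (Pairwise fun a b => Disjoint (C a) (C b)) → ∀ n : ℕ,
  (μ.prod μ).real (symmDiff {q | ∃ a, q.1 ∈ C a ∧ q.2 ∈ C a}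
    ((TT T)^[n] ⁻¹' {q | ∃ a, q.1 ∈ C a ∧ q.2 ∈ C a})) ≤ ε →
  ∀ a, ∃ b, μ.real (symmDiff (C a) (T^[n] ⁻¹' C b)) ≤ 2 * ε / c₀

/-- PE: a power of the map nearly preserves the classes. -/
def T_PE : Prop := ∀ (X : Type) [MeasurableSpace X] (μ : Measure X) [IsProbabilityMeasure μ]
  (T : X ≃ᵐ X) (W r : ℕ) (C : Fin r → Set X) (c₀ δ : ℝ), MeasurePreserving T μ μ → 0 < c₀ →
  0 ≤ δ → 4 * δ < c₀ → (∀ a, MeasurableSet (C a) ∧ c₀ ≤ μ.real (C a)) →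
  (Pairwise fun a b => Disjoint (C a) (C b)) →
  (∀ n : ℕ, ∀ a, ∃ b, μ.real (symmDiff (C a) (T^[W * n] ⁻¹' C b)) ≤ δ) →
  ∀ n : ℕ, ∀ a, μ.real (symmDiff (C a) (T^[W * r ! * n] ⁻¹' C a)) ≤ δ

/-- ED: the last step. -/
def T_END : Prop := ∀ c : CtxE, c.CP (triv c.X) → False

/-- K1: one point. -/
def T_K1 : Prop := ∀ c : Ctx, c.k = 1 → False

/-- ERG: the ergodic theorem which we want. -/
def T_ERG : Prop := IsEmpty Ctx

end Pool.Agent.H67.AG
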