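import Pool.Agent.H40.AG.TargetsE
import Pool.Agent.H67.AG.T4
import Pool.Agent.H67.AG.T6

/-!
ABSOLUTE GAP (`MP_c59857_nt`): targets for section 7 of `H67_gap.md` (the descent).
-/

set_option autoImplicit false

open MeasureTheory ProbabilityTheory Filter Topology Finset
open scoped Nat ENNReal

namespace Pool.Agent.H67.AG

open Pool.Agent.H24.T2 (Pset)
open Pool.Agent.H40.AG (QQ dg)

/-- the threshold of the dichotomy -/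
noncomputable def m1 : ℝ := 81 / 100000

namespace CtxE

variable (c : CtxE)

/-- the conditional mismatch in the self-joining over `Z` -/
noncomputable def MR (Z : SA c.X) (q : c.X × c.X) : ℝ :=
  Mis (JJ c.μ Z) (Rt (TT c.T)) c.D1 c.D2 q

/-- close good points -/
def Rel (Z : SA c.X) : Set (c.X × c.X) := {q | q.1 ∈ c.Xg ∧ q.2 ∈ c.Xg ∧ c.MR Z q ≤ 1 / 2}

/-- the mismatch density in a window of length `L` along `T ^ W` -/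
noncomputable def dL (W L : ℕ) (q : c.X × c.X) : ℝ := ∑ i, Av (TT c.T) W L (dl c.D1 c.D2 i) q

open Classical in
/-- the word of length `L` along `T ^ W` -/
noncomputable def wd (W L : ℕ) (x : c.X) : Fin c.k → Fin L → Bool :=
  fun i l => decide (c.Dt i (c.T^[W * l] x) = 1)

open Classical in
/-- the first reference which is close to the last point -/
noncomputable def sel (W L n : ℕ) (B : Set c.X) (q : XX c.X (n + 1)) : Fin (n + 1) :=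
  if h : (univ.filter fun b => c.dL W L (q.2.1 b, q.2.2) ≤ 1 / 2).Nonempty ∧ q.1.1 ∈ B then
    (univ.filter fun b => c.dL W L (q.2.1 b, q.2.2) ≤ 1 / 2).min' h.1 else 0

/-- the good configurations -/
def GG (Z : SA c.X) (W L n : ℕ) (B : Set c.X) : Set (XX c.X (n + 1)) :=
  {q | q.1.1 ∈ B ∧ (∃ b, c.dL W L (q.2.1 b, q.2.2) ≤ 2 * m1) ∧
    ∀ a b, a ≠ b → |c.dL W L (q.2.1 a, q.2.1 b) - c.MR Z (q.2.1 a, q.2.1 b)| ≤ 1 / 100 ∧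
      (c.MR Z (q.2.1 a, q.2.1 b) ≤ m1 ∨ 1 - m1 ≤ c.MR Z (q.2.1 a, q.2.1 b))}

/-- the bad configurations over `B` -/
def BG (Z : SA c.X) (W L n : ℕ) (B : Set c.X) : Set (XX c.X (n + 1)) :=
  {q | q.1.1 ∈ B ∧ q ∉ c.GG Z W L n B}

/-- the tuple of the reference `b` -/
def yX (n : ℕ) (b : Fin (n + 1)) (i : Fin c.k) (q : XX c.X (n + 1)) : ℝ := c.Dt i (q.2.1 b)

/-- the tuple of the last point -/
def yL (n : ℕ) (i : Fin c.k) (q : XX c.X (n + 1)) : ℝ := c.Dt i q.2.2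

/-- the tuple of the selected reference -/
noncomputable def yS (W L n : ℕ) (B : Set c.X) (i : Fin c.k) (q : XX c.X (n + 1)) : ℝ :=
  c.Dt i (q.2.1 (c.sel W L n B q))

end CtxE

/-- DRM: the dichotomy on the good points. -/
def T_DRM : Prop := ∀ (c : CtxE) (Z : SA c.X), InvZ c.T Z →
  ∀ᵐ q ∂(JJ c.μ Z), q.1 ∈ c.Xg → q.2 ∈ c.Xg → 0 ≤ c.MR Z q ∧ (c.MR Z q ≤ m1 ∨ 1 - m1 ≤ c.MR Z q)

/-- CLM: the mass of the classes. -/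
def T_CLM : Prop := ∀ (c : CtxE) (Z : SA c.X), InvZ c.T Z → c.CP Z →
  ∃ (c₀ : ℝ) (X1 : Set c.X), 0 < c₀ ∧ c₀ ≤ 1 ∧ MeasurableSet[Rt c.T] X1 ∧ X1 ⊆ c.Xg ∧
    0 < c.μ.real X1 ∧ ∀ᵐ x ∂c.μ, x ∈ X1 → c₀ ≤ (kap c.μ Z x).real {x' | (x', x) ∈ c.Rel Z}

/-- CHW: choice of the modulus. -/
def T_CHW : Prop := ∀ (c : CtxE) (Z : SA c.X) (X1 : Set c.X) (θ : ℝ), InvZ c.T Z →
  MeasurableSet[Rt c.T] X1 → X1 ⊆ c.Xg → 0 < θ →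
  ∃ (w : ℕ) (X1' : Set c.X), 0 < w ∧ MeasurableSet[Inv c.T (c.W w)] X1' ∧ X1' ⊆ c.Y ∧
    c.μ.real (symmDiff X1 X1') ≤ θ ∧
    Lam (c.U w) (c.W w) c.μ c.T c.β c.σ c.Dt X1' ≤ 4 * κ₀ * c.μ.real X1 + θ ∧
    ∫ q, |Mis (JJ c.μ Z) (Inv (TT c.T) (c.W w)) c.D1 c.D2 q - c.MR Z q| ∂(JJ c.μ Z) ≤ θ ∧
    (∀ i, ∫ q, |((JJ c.μ Z)[fun q => c.D1 i q * c.D2 i q | Inv (TT c.T) (c.W w * Dlt c.β)]) q -
      ((JJ c.μ Z)[fun q => c.D1 i q * c.D2 i q | Inv (TT c.T) (c.W w)]) q| ∂(JJ c.μ Z) ≤ θ) ∧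
    (c.k : ℝ) ^ 2 / w ≤ θ

/-- CHL: choice of the window. -/
def T_CHL : Prop := ∀ (c : CtxE) (Z : SA c.X) (W : ℕ) (θ : ℝ), InvZ c.T Z → 0 < θ →
  ∃ L₀ : ℕ, ∀ L, L₀ ≤ L →
    ∫ q, |c.dL W L q - Mis (JJ c.μ Z) (Inv (TT c.T) W) c.D1 c.D2 q| ∂(JJ c.μ Z) ≤ θ

/-- CHR: choice of the law of the nearby points. -/
def T_CHR : Prop := ∀ (c : CtxE) (Z : SA c.X) (W L : ℕ) (B : Set c.X) (θ : ℝ), InvZ c.T Z →
  0 < W → MeasurableSet[Inv c.T W] B → 0 < θ →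
  ∃ R : Measure (c.X × c.X), IsProbabilityMeasure R ∧ MeasurePreserving (TT c.T) R R ∧
    R ≪ JJ c.μ Z ∧ MeasurePreserving Prod.fst R c.μ ∧ MeasurePreserving Prod.snd R c.μ ∧
    ∫ q, ∑ v, |(kap c.μ (nxt c.μ c.T Z) q.1).real (c.wd W L ⁻¹' {v}) -
      (kap c.μ (nxt c.μ c.T Z) q.2).real (c.wd W L ⁻¹' {v})| ∂(R) ≤ θ ∧
    R.real {q | ¬ (q.1 ∈ B ↔ q.2 ∈ B)} ≤ θ

/-- GGP: most configurations are good. -/
def T_GGP : Prop := ∀ (c : CtxE) (Z : SA c.X) (c₀ : ℝ) (X1 B : Set c.X) (W L n : ℕ)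
  (R : Measure (c.X × c.X)) [IsProbabilityMeasure R] (θ θ' θ'' : ℝ), InvZ c.T Z → Rt c.T ≤ Z.1 →
  0 < c₀ → c₀ ≤ 1 → MeasurableSet[Rt c.T] X1 → X1 ⊆ c.Xg →
  (∀ᵐ x ∂c.μ, x ∈ X1 → c₀ ≤ (kap c.μ Z x).real {x' | (x', x) ∈ c.Rel Z}) →
  0 < W → 0 < L → MeasurableSet[Inv c.T W] B → c.μ.real (symmDiff X1 B) ≤ θ →
  ∫ q, |c.dL W L q - c.MR Z q| ∂(JJ c.μ Z) ≤ θ' →
  MeasurePreserving Prod.fst R c.μ → MeasurePreserving Prod.snd R c.μ →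
  ∫ q, ∑ v, |(kap c.μ Z q.1).real (c.wd W L ⁻¹' {v}) -
    (kap c.μ Z q.2).real (c.wd W L ⁻¹' {v})| ∂(R) ≤ θ'' →
  (PX c.μ Z (n + 1) R).real (c.BG Z W L n B) ≤
    2 * θ + θ'' + (1 - c₀) ^ (n + 1) + (((n : ℝ) + 1) / m1 + 100 * ((n : ℝ) + 1) ^ 2) * θ'

/-- SLV: the selection changes slowly. -/
def T_SLV : Prop := ∀ (c : CtxE) (Z : SA c.X) (B : Set c.X) (W L n l : ℕ)
  (P : Measure (XX c.X (n + 1))) [IsProbabilityMeasure P],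
  MeasurePreserving (TX c.T (n + 1)) P P → 0 < W → 0 < L → MeasurableSet[Inv c.T W] B →
  Measurable (c.sel W L n B) ∧
  (16 * c.k * l ≤ L → P.real {q | c.sel W L n B ((TX c.T (n + 1))^[W * l] q) ≠ c.sel W L n B q} ≤
    2 * P.real (c.BG Z W L n B)) ∧
  ∀ h : ℕ, L = 16 * c.k * h → l ≤ L →
    P.real {q | c.sel W L n B ((TX c.T (n + 1))^[W * l] q) ≠ c.sel W L n B q} ≤
    32 * c.k * P.real (c.BG Z W L n B)

/-- MSM: the mismatch of the selected reference and the last point. -/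
def T_MSM : Prop := ∀ (c : CtxE) (Z : SA c.X) (B : Set c.X) (W L n h : ℕ)
  (P : Measure (XX c.X (n + 1))) [IsProbabilityMeasure P],
  MeasurePreserving (TX c.T (n + 1)) P P → 0 < W → 0 < L → L = 16 * c.k * h →
  MeasurableSet[Inv c.T W] B →
  (∀ a b, a ≠ b → Integrable (fun q => c.MR Z (q.2.1 a, q.2.1 b)) P) →
  ∑ i, P.real {q | q.1.1 ∈ B ∧ c.Dt i (q.2.1 (c.sel W L n B q)) ≠ c.Dt i q.2.2} ≤
    3 * m1 * P.real {q | q.1.1 ∈ B} +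
    ∑ a, ∑ b, (if a = b then 0 else
      ∫ q, |c.dL W L (q.2.1 a, q.2.1 b) - c.MR Z (q.2.1 a, q.2.1 b)| ∂P) +
    ((c.k : ℝ) + 32 * (c.k : ℝ) ^ 2) * P.real (c.BG Z W L n B)

/-- LMD: comparison of the errors of two tuples. -/
def T_LMD : Prop := ∀ (Ω : Type) [MeasurableSpace Ω] (P : Measure Ω) [IsProbabilityMeasure P]
  (T : Ω ≃ᵐ Ω) (k : ℕ) (β : Fin k → ℕ) (σ : ℝ) (W : ℕ) (U : Ultrafilter ℕ)
  (y y' : Fin k → Ω → ℝ) (A : Set Ω), MeasurePreserving T P P → 0 < W → (U : Filter ℕ) ≤ atTop →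
  Tup y → Tup y' → MeasurableSet[Inv T W] A →
  Lam U W P T β σ y A ≤ Lam U W P T β σ y' A + ∑ i, P.real (A ∩ {ω | y i ω ≠ y' i ω})

/-- LMF: errors and factor maps, change of the set. -/
def T_LMF : Prop := ∀ (Ω Ω' : Type) [MeasurableSpace Ω] [MeasurableSpace Ω'] (P : Measure Ω)
  [IsProbabilityMeasure P] (P' : Measure Ω') [IsProbabilityMeasure P'] (T : Ω ≃ᵐ Ω)
  (T' : Ω' ≃ᵐ Ω') (g : Ω → Ω') (k : ℕ) (β : Fin k → ℕ) (σ : ℝ) (W : ℕ) (U : Ultrafilter ℕ)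
  (y : Fin k → Ω' → ℝ) (A : Set Ω) (A' : Set Ω'), Fac P T P' T' g → Tup y → MeasurableSet A →
  MeasurableSet A' →
  Lam U W P T β σ (fun i ω => y i (g ω)) A ≤ Lam U W P' T' β σ y A' + P.real (A \ g ⁻¹' A')

/-- FIN: from a set with small mismatch to closeness. -/
def T_FIN : Prop := ∀ (c : CtxE) (Z : SA c.X) (R : Measure (c.X × c.X)) [IsProbabilityMeasure R]
  (W : ℕ) (X1 : Set c.X) (B : Set (c.X × c.X)) (θ : ℝ), InvZ c.T Z →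
  MeasurePreserving (TT c.T) R R → R ≪ JJ c.μ Z → 0 < W → MeasurableSet[Rt c.T] X1 →
  X1 ⊆ c.Xg → MeasurableSet[Inv (TT c.T) W] B →
  (∀ᵐ q ∂(R), q ∈ B → Mis R (Inv (TT c.T) W) c.D1 c.D2 q ≤ 17 / 100) →
  R.real (B \ {q | q.1 ∈ X1 ∧ q.2 ∈ X1}) ≤ θ → 2 * θ < R.real B → c.CP Z

/-- the intermediate statement -/
def Mid (c : CtxE) (Z : SA c.X) : Prop := ∃ (w : ℕ) (X1 X1' : Set c.X) (R : Measure (c.X × c.X))
    (θ : ℝ), IsProbabilityMeasure R ∧ MeasurableSet[Rt c.T] X1 ∧ X1 ⊆ c.Xg ∧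
    MeasurableSet[Inv c.T (c.W w)] X1' ∧ c.μ.real (symmDiff X1 X1') ≤ θ ∧
    MeasurePreserving (TT c.T) R R ∧ R ≪ JJ c.μ Z ∧ MeasurePreserving Prod.fst R c.μ ∧
    MeasurePreserving Prod.snd R c.μ ∧ R.real {q | ¬ (q.1 ∈ X1' ↔ q.2 ∈ X1')} ≤ θ ∧
    8 * θ < (QQ c.μ (nxt c.μ c.T Z) R).real {q | q.1 ∈ X1' ∧
      Mis (QQ c.μ (nxt c.μ c.T Z) R) (Inv (TT c.T) (c.W w)) c.D1 c.D2 q ≤ 17 / 100}

/-- the choice of all parameters, with the conclusion of the switching lemma -/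
def Par (c : CtxE) (Z : SA c.X) : Prop :=
  ∃ (n w L : ℕ) (X1 X1' : Set c.X) (R : Measure (c.X × c.X)) (θ : ℝ),
    0 < w ∧ 0 < L ∧ 0 ≤ θ ∧ (∃ h, L = 16 * c.k * h) ∧
    IsProbabilityMeasure R ∧ MeasurableSet[Rt c.T] X1 ∧ X1 ⊆ c.Xg ∧ 0 < c.μ.real X1 ∧
    MeasurableSet[Inv c.T (c.W w)] X1' ∧ c.μ.real (symmDiff X1 X1') ≤ θ ∧
    MeasurePreserving (TT c.T) R R ∧ R ≪ JJ c.μ Z ∧ MeasurePreserving Prod.fst R c.μ ∧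
    MeasurePreserving Prod.snd R c.μ ∧ R.real {q | ¬ (q.1 ∈ X1' ↔ q.2 ∈ X1')} ≤ θ ∧
    Lam (c.U w) (c.W w) c.μ c.T c.β c.σ c.Dt X1' ≤ 4 * κ₀ * c.μ.real X1 + θ ∧
    ∫ q, |c.dL (c.W w) L q - c.MR (nxt c.μ c.T Z) q| ∂(JJ c.μ (nxt c.μ c.T Z)) ≤ θ ∧
    (PX c.μ (nxt c.μ c.T Z) (n + 1) R).real (c.BG (nxt c.μ c.T Z) (c.W w) L n X1') ≤
      c.μ.real X1 / (10 ^ 6 * ((c.k : ℝ) + 1) ^ 2) ∧
    θ * (10 ^ 6 * ((n : ℝ) + 1) ^ 2 * ((c.k : ℝ) + 1) ^ 2) ≤ c.μ.real X1 ∧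
    (PX c.μ (nxt c.μ c.T Z) (n + 1) R).real ({q | q.1.1 ∈ X1'} ∩ {q | ∀ b, 113 / 1000 <
      Mis (PX c.μ (nxt c.μ c.T Z) (n + 1) R) (Inv (TX c.T (n + 1)) (c.W w))
        (c.yS (c.W w) L n X1') (c.yX n b) q}) ≤
      20 * Lam (c.U w) (c.W w) (PX c.μ (nxt c.μ c.T Z) (n + 1) R) (TX c.T (n + 1)) c.β c.σ
        (c.yS (c.W w) L n X1') {q | q.1.1 ∈ X1'} + c.μ.real X1 / 100

/-- CB0: the choice of the parameters. -/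
def T_CB0 : Prop := ∀ (c : CtxE) (Z : SA c.X), InvZ c.T Z → c.CP (nxt c.μ c.T Z) → Par c Z

/-- CB1: the computation. -/
def T_CB1 : Prop := ∀ (c : CtxE) (Z : SA c.X), InvZ c.T Z → Par c Z → Mid c Z

/-- CB2: the end of the descent. -/
def T_CB2 : Prop := ∀ (c : CtxE) (Z : SA c.X), InvZ c.T Z → Mid c Z → c.CP Z

end Pool.Agent.H67.AG
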