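import Pool.Agent.H67.AG.Defs

/-!
ABSOLUTE GAP (`MP_c59857_nt`): targets for the sections 1 and 2 of `H67_gap.md`
(conditional expectations; kernels, relatively independent self-joinings, the tower).
-/

set_option autoImplicit false

open MeasureTheory ProbabilityTheory Filter Topology Finset
open scoped Nat ENNReal

namespace Pool.Agent.H67.AG

/-! ### Section 1 -/

/-- IF: invariant functions are measurable for the invariant sets. -/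
def T_IF : Prop := ∀ (Ω : Type) [MeasurableSpace Ω] (P : Measure Ω) [IsProbabilityMeasure P]
  (T : Ω ≃ᵐ Ω) (W : ℕ) (f : Ω → ℝ), MeasurePreserving T P P → Measurable f →
  (∃ C, ∀ ω, |f ω| ≤ C) → (fun ω => f (T^[W] ω)) =ᵐ[P] f → P[f | Inv T W] =ᵐ[P] f

/-- EC: conditional expectation of a translate. -/
def T_EC : Prop := ∀ (Ω : Type) [MeasurableSpace Ω] (P : Measure Ω) [IsProbabilityMeasure P]
  (T : Ω ≃ᵐ Ω) (W n : ℕ) (f : Ω → ℝ), MeasurePreserving T P P → Measurable f →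
  (∃ C, ∀ ω, |f ω| ≤ C) →
  (P[fun ω => f (T^[n] ω) | Inv T W] =ᵐ[P] fun ω => (P[f | Inv T W]) (T^[n] ω)) ∧
  ∀ ω, (P[f | Inv T W]) (T^[W] ω) = (P[f | Inv T W]) ω

/-- ME: the mean ergodic theorem. -/
def T_ME : Prop := ∀ (Ω : Type) [MeasurableSpace Ω] (P : Measure Ω) [IsProbabilityMeasure P]
  (T : Ω ≃ᵐ Ω) (W : ℕ) (f : Ω → ℝ), MeasurePreserving T P P → Measurable f →
  (∀ ω, |f ω| ≤ 1) →
  Tendsto (fun n => ∫ ω, (Av T W n f ω - (P[f | Inv T W]) ω) ^ 2 ∂P) atTop (𝓝 0)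

/-- NA: naturality. -/
def T_NA : Prop := ∀ (Ω Ω' : Type) [MeasurableSpace Ω] [MeasurableSpace Ω'] (P : Measure Ω)
  [IsProbabilityMeasure P] (P' : Measure Ω') [IsProbabilityMeasure P'] (T : Ω ≃ᵐ Ω)
  (T' : Ω' ≃ᵐ Ω') (g : Ω → Ω') (W : ℕ) (f : Ω' → ℝ), MeasurePreserving T P P →
  MeasurePreserving T' P' P' → Fac P T P' T' g → Measurable f → (∃ C, ∀ ω, |f ω| ≤ C) →
  P[fun ω => f (g ω) | Inv T W] =ᵐ[P] fun ω => (P'[f | Inv T' W]) (g ω)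

/-- LV: the rational sets are nearly invariant under highly divisible powers. -/
def T_LV : Prop := ∀ (Ω : Type) [MeasurableSpace Ω] (P : Measure Ω) [IsProbabilityMeasure P]
  (T : Ω ≃ᵐ Ω) (f : Ω → ℝ) (ε : ℝ), Measurable f → (∃ C, ∀ ω, |f ω| ≤ C) → 0 < ε →
  ∃ w₀ : ℕ, ∀ W : ℕ, 0 < W → w₀ ! ∣ W →
    ∫ ω, |(P[f | Rt T]) ω - (P[f | Inv T W]) ω| ∂P ≤ ε

/-- RS: the same for sets. -/
def T_RS : Prop := ∀ (Ω : Type) [MeasurableSpace Ω] (P : Measure Ω) [IsProbabilityMeasure P]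
  (T : Ω ≃ᵐ Ω) (A : Set Ω) (ε : ℝ), MeasurableSet[Rt T] A → 0 < ε →
  ∃ w₀ : ℕ, ∀ W : ℕ, 0 < W → w₀ ! ∣ W →
    ∃ A', MeasurableSet[Inv T W] A' ∧ P.real (symmDiff A A') ≤ ε

/-- NR: naturality for the rational sets. -/
def T_NR : Prop := ∀ (Ω Ω' : Type) [MeasurableSpace Ω] [MeasurableSpace Ω'] (P : Measure Ω)
  [IsProbabilityMeasure P] (P' : Measure Ω') [IsProbabilityMeasure P'] (T : Ω ≃ᵐ Ω)
  (T' : Ω' ≃ᵐ Ω') (g : Ω → Ω') (f : Ω' → ℝ), MeasurePreserving T P P →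
  MeasurePreserving T' P' P' → Fac P T P' T' g → Measurable f → (∃ C, ∀ ω, |f ω| ≤ C) →
  P[fun ω => f (g ω) | Rt T] =ᵐ[P] fun ω => (P'[f | Rt T']) (g ω)

/-- CH: change of measure. -/
def T_CH : Prop := ∀ (Ω : Type) [MeasurableSpace Ω] (P ν : Measure Ω) [IsProbabilityMeasure P]
  [IsProbabilityMeasure ν] (T : Ω ≃ᵐ Ω) (W : ℕ) (f : Ω → ℝ), MeasurePreserving T P P →
  MeasurePreserving T ν ν → ν ≪ P → Measurable f → (∃ C, ∀ ω, |f ω| ≤ C) →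
  ν[f | Inv T W] =ᵐ[ν] P[f | Inv T W]

/-- CR: change of measure for the rational sets. -/
def T_CR : Prop := ∀ (Ω : Type) [MeasurableSpace Ω] (P ν : Measure Ω) [IsProbabilityMeasure P]
  [IsProbabilityMeasure ν] (T : Ω ≃ᵐ Ω) (f : Ω → ℝ), MeasurePreserving T P P →
  MeasurePreserving T ν ν → ν ≪ P → Measurable f → (∃ C, ∀ ω, |f ω| ≤ C) →
  ν[f | Rt T] =ᵐ[ν] P[f | Rt T]

/-- DU: dual form of the naturality. -/
def T_DU : Prop := ∀ (Ω Ω' : Type) [MeasurableSpace Ω] [MeasurableSpace Ω'] (P : Measure Ω)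
  [IsProbabilityMeasure P] (P' : Measure Ω') [IsProbabilityMeasure P'] (T : Ω ≃ᵐ Ω)
  (T' : Ω' ≃ᵐ Ω') (g : Ω → Ω') (ψ : Ω → ℝ), MeasurePreserving T P P →
  MeasurePreserving T' P' P' → Fac P T P' T' g → Measurable[Rt T] ψ →
  (∀ ω, 0 ≤ ψ ω ∧ ψ ω ≤ 1) →
  ∃ ψ' : Ω' → ℝ, Measurable[Rt T'] ψ' ∧ (∀ ω, 0 ≤ ψ' ω ∧ ψ' ω ≤ 1) ∧
    ∀ h : Ω' → ℝ, Measurable h → (∃ C, ∀ ω, |h ω| ≤ C) →
      ∫ ω, ψ ω * h (g ω) ∂P = ∫ ω, ψ' ω * h ω ∂P'

/-- PW: from a power of `T ^ W` to `T ^ W`. -/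
def T_PW : Prop := ∀ (Ω : Type) [MeasurableSpace Ω] (P : Measure Ω) [IsProbabilityMeasure P]
  (T : Ω ≃ᵐ Ω) (W d : ℕ) (f : Ω → ℝ), MeasurePreserving T P P → Measurable f →
  (∃ C, ∀ ω, |f ω| ≤ C) → 0 < W → 0 < d →
  P[f | Inv T W] =ᵐ[P]
    fun ω => (∑ r ∈ range d, (P[fun ω' => f (T^[W * r] ω') | Inv T (W * d)]) ω) / d

/-- AI: a set which is nearly invariant under all the powers is nearly equal to its projection. -/
def T_AI : Prop := ∀ (Ω : Type) [MeasurableSpace Ω] (P : Measure Ω) [IsProbabilityMeasure P]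
  (T : Ω ≃ᵐ Ω) (W : ℕ) (A : Set Ω) (e : ℝ), MeasurePreserving T P P → MeasurableSet A →
  (∀ n : ℕ, P.real (symmDiff A (T^[W * n] ⁻¹' A)) ≤ e) →
  ∫ ω, |A.indicator (fun _ => (1 : ℝ)) ω -
    (P[A.indicator (fun _ => (1 : ℝ)) | Inv T W]) ω| ∂P ≤ e

/-! ### Section 2 -/

/-- J1: the formula for the relatively independent self-joining. -/
def T_J1 : Prop := ∀ (X : Type) [MeasurableSpace X] [StandardBorelSpace X] (μ : Measure X)
  [IsProbabilityMeasure μ] (Z : SA X) (F G : X → ℝ), Measurable F → Measurable G →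
  (∃ C, ∀ x, |F x| ≤ C) → (∃ C, ∀ x, |G x| ≤ C) →
  ∫ q, F q.1 * G q.2 ∂(JJ μ Z) = ∫ x, (μ[F | Z.1]) x * (μ[G | Z.1]) x ∂μ

/-- J2: marginals and symmetry. -/
def T_J2 : Prop := ∀ (X : Type) [MeasurableSpace X] [StandardBorelSpace X] (μ : Measure X)
  [IsProbabilityMeasure μ] (Z : SA X), IsProbabilityMeasure (JJ μ Z) ∧
  MeasurePreserving Prod.fst (JJ μ Z) μ ∧ MeasurePreserving Prod.snd (JJ μ Z) μ ∧
  MeasurePreserving Prod.swap (JJ μ Z) (JJ μ Z)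

/-- J3: invariance. -/
def T_J3 : Prop := ∀ (X : Type) [MeasurableSpace X] [StandardBorelSpace X] (μ : Measure X)
  [IsProbabilityMeasure μ] (T : X ≃ᵐ X) (Z : SA X), MeasurePreserving T μ μ → InvZ T Z →
  MeasurePreserving (TT T) (JJ μ Z) (JJ μ Z) ∧
  ∀ᵐ x ∂μ, kap μ Z (T x) = (kap μ Z x).map T

/-- J4: equal fibres. -/
def T_J4 : Prop := ∀ (X : Type) [MeasurableSpace X] [StandardBorelSpace X] (μ : Measure X)
  [IsProbabilityMeasure μ] (Z : SA X),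
  (∀ᵐ q ∂(JJ μ Z), kap μ Z q.1 = kap μ Z q.2) ∧
  (∀ A, MeasurableSet[Z.1] A → ∀ᵐ q ∂(JJ μ Z), (q.1 ∈ A ↔ q.2 ∈ A)) ∧
  ∀ f : X → ℝ, Measurable f → (∃ C, ∀ x, |f x| ≤ C) →
    (μ[f | Z.1]) =ᵐ[μ] fun x => ∫ y, f y ∂(kap μ Z x)

/-- QM: a `T × T`-invariant probability which is absolutely continuous with respect to the
self-joining has the marginals `μ`. -/
def T_QM : Prop := ∀ (X : Type) [MeasurableSpace X] [StandardBorelSpace X] (μ : Measure X)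
  [IsProbabilityMeasure μ] (T : X ≃ᵐ X) (Z : SA X), Ergodic T μ → InvZ T Z →
  (∀ R : Measure (X × X), IsProbabilityMeasure R → MeasurePreserving (TT T) R R → R ≪ JJ μ Z →
    MeasurePreserving Prod.fst R μ ∧ MeasurePreserving Prod.snd R μ) ∧
  ∀ E : Set (X × X), MeasurableSet E → (TT T) ⁻¹' E = E → 0 < (JJ μ Z).real E →
    IsProbabilityMeasure ((JJ μ Z)[|E]) ∧
    MeasurePreserving (TT T) ((JJ μ Z)[|E]) ((JJ μ Z)[|E]) ∧ (JJ μ Z)[|E] ≪ JJ μ Z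

/-- GI: the distance is invariant. -/
def T_GI : Prop := ∀ (X : Type) [MeasurableSpace X] [StandardBorelSpace X] (μ : Measure X)
  [IsProbabilityMeasure μ] (T : X ≃ᵐ X) (Z : SA X) (n W : ℕ) (H : Fin n → X × X → ℝ),
  MeasurePreserving T μ μ → InvZ T Z → (∀ l, Adm T W (H l)) →
  Measurable (Gb μ Z T n W H) ∧ ∀ᵐ q ∂(JJ μ Z), Gb μ Z T n W H (TT T q) = Gb μ Z T n W H q

/-- GP: nearby points have positive mass. -/
def T_GP : Prop := ∀ (X : Type) [MeasurableSpace X] [StandardBorelSpace X] (μ : Measure X)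
  [IsProbabilityMeasure μ] (T : X ≃ᵐ X) (Z : SA X) (n W : ℕ) (H : Fin n → X × X → ℝ) (ε : ℝ),
  MeasurePreserving T μ μ → InvZ T Z → (∀ l, Adm T W (H l)) → 0 < ε →
  0 < (JJ μ Z).real {q | Gb μ Z T n W H q ≤ ε}

/-- NXA: the almost periodic sets are a σ-algebra. -/
def T_NXA : Prop := ∀ (X : Type) [MeasurableSpace X] [StandardBorelSpace X] (μ : Measure X)
  [IsProbabilityMeasure μ] (T : X ≃ᵐ X) (Z : SA X), Ergodic T μ → InvZ T Z →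
  ∀ A, MeasurableSet[(nxt μ T Z).1] A ↔ NX μ T Z A

/-- NXI: properties of the next step. -/
def T_NXI : Prop := ∀ (X : Type) [MeasurableSpace X] [StandardBorelSpace X] (μ : Measure X)
  [IsProbabilityMeasure μ] (T : X ≃ᵐ X) (Z : SA X), Ergodic T μ → InvZ T Z →
  InvZ T (nxt μ T Z) ∧ Z.1 ≤ (nxt μ T Z).1 ∧ Rt T ≤ (nxt μ T Z).1

/-- AP: almost periodicity of finitely many functions. -/
def T_AP : Prop := ∀ (X : Type) [MeasurableSpace X] [StandardBorelSpace X] (μ : Measure X)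
  [IsProbabilityMeasure μ] (T : X ≃ᵐ X) (Z : SA X), Ergodic T μ → InvZ T Z →
  ∀ (n : ℕ) (ph : Fin n → X → ℝ) (δ : ℝ), (∀ i, Measurable[(nxt μ T Z).1] (ph i)) →
  (∀ i x, |ph i x| ≤ 1) → 0 < δ →
  ∃ E : Set (X × X), MeasurableSet E ∧ (TT T) ⁻¹' E = E ∧ 0 < (JJ μ Z).real E ∧
    ∑ i, ∫ q in E, |ph i q.1 - ph i q.2| ∂(JJ μ Z) ≤ δ * (JJ μ Z).real E

/-- CV: convolutions with admissible functions are almost periodic. -/
def T_CV : Prop := ∀ (X : Type) [MeasurableSpace X] [StandardBorelSpace X] (μ : Measure X)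
  [IsProbabilityMeasure μ] (T : X ≃ᵐ X) (Z : SA X) (W : ℕ) (H : X × X → ℝ) (g : X → ℝ),
  Ergodic T μ → InvZ T Z → 0 < W → Adm T W H → Measurable g → (∀ x, |g x| ≤ 1) →
  ∃ ph : X → ℝ, Measurable[(nxt μ T Z).1] ph ∧ (∀ x, |ph x| ≤ 1) ∧ conv μ Z H g =ᵐ[μ] ph

/-- ST: one step of the tower in terms of the products with translates. -/
def T_ST : Prop := ∀ (X : Type) [MeasurableSpace X] [StandardBorelSpace X] (μ : Measure X)
  [IsProbabilityMeasure μ] (T : X ≃ᵐ X) (Z : SA X) (b : ℕ) (g : X → ℝ) (ε : ℝ),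
  Ergodic T μ → InvZ T Z → 0 < b → Measurable g → (∀ x, |g x| ≤ 1) → 0 < ε →
  ∃ H₀ : ℕ, ∀ H : ℕ, H₀ ≤ H →
    ∑ s ∈ range H, ∑ t ∈ range H,
      ∫ x, ((μ[fun x' => g (T^[b * s] x') * g (T^[b * t] x') | Z.1]) x) ^ 2 ∂μ ≤
    (H : ℝ) ^ 2 * (√(∫ x, ((μ[g | (nxt μ T Z).1]) x) ^ 2 ∂μ) + ε)

/-- TW: the tower is invariant. -/
def T_TW : Prop := ∀ (X : Type) [MeasurableSpace X] [StandardBorelSpace X] (μ : Measure X)
  [IsProbabilityMeasure μ] (T : X ≃ᵐ X), Ergodic T μ → ∀ j, InvZ T (tow μ T j)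

end Pool.Agent.H67.AG
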