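import Mathlib
import Pool.Agent.H24.T2.Interface

/-!
ABSOLUTE GAP (`MP_c59857_nt`): definitions. The proof on paper is in the store, `H67_gap.md`.
-/

set_option autoImplicit false

open MeasureTheory ProbabilityTheory Filter Topology Finset
open scoped Nat ENNReal

namespace Pool.Agent.H67.AG

open Pool.Agent.H24.T2 (Pset)

/-! ### averages over primes and limits along ultrafilters -/

/-- average over the primes `≡ 1 (mod W)` in `(2 ^ m, 2 ^ (m + 1)]` -/
noncomputable def avgP (W m : ℕ) (F : ℕ → ℝ) : ℝ := (∑ p ∈ Pset W m, F p) / ((Pset W m).card : ℝ)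

/-- limit of a bounded real sequence along an ultrafilter -/
noncomputable def ul (U : Ultrafilter ℕ) (f : ℕ → ℝ) : ℝ := limUnder (U : Filter ℕ) f

/-! ### invariant sets -/

section inv

variable {Ω : Type} [MeasurableSpace Ω]

/-- the measurable sets which are strictly invariant under `T ^ n` -/
abbrev Inv (T : Ω ≃ᵐ Ω) (n : ℕ) : MeasurableSpace Ω := MeasurableSpace.invariants (T^[n])

/-- the rational sets: generated by the sets which are invariant under some power of `T` -/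
@[reducible] def Rt (T : Ω ≃ᵐ Ω) : MeasurableSpace Ω := ⨆ w : ℕ, Inv T (w !)

/-- ergodic averages along `T ^ W` -/
noncomputable def Av (T : Ω ≃ᵐ Ω) (W n : ℕ) (f : Ω → ℝ) (ω : Ω) : ℝ :=
  (∑ l ∈ range n, f (T^[W * l] ω)) / n

end inv

/-! ### sub-σ-algebras, kernels, relatively independent self-joinings -/

/-- sub-σ-algebras -/
abbrev SA (X : Type) [mX : MeasurableSpace X] := {Z : MeasurableSpace X // Z ≤ mX}

section ker

variable {X : Type} [mX : MeasurableSpace X] [StandardBorelSpace X]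

/-- the conditional distributions given `Z` -/
noncomputable def kap (μ : Measure X) [IsFiniteMeasure μ] (Z : SA X) : Kernel X X :=
  Kernel.comap (condExpKernel μ Z.1) id (measurable_id'' Z.2)

/-- the relatively independent self-joining over `Z` -/
noncomputable def JJ (μ : Measure X) [IsFiniteMeasure μ] (Z : SA X) : Measure (X × X) :=
  μ ⊗ₘ kap μ Z

/-- the diagonal map -/
def TT (T : X ≃ᵐ X) : X × X ≃ᵐ X × X := T.prodCongr T

/-- `Z` is invariant -/
def InvZ (T : X ≃ᵐ X) (Z : SA X) : Prop :=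
  ∀ A, MeasurableSet[Z.1] A → MeasurableSet[Z.1] (T ⁻¹' A) ∧ MeasurableSet[Z.1] (T.symm ⁻¹' A)

/-- an admissible function of two variables, invariant under `(T × T) ^ W` -/
def Adm (T : X ≃ᵐ X) (W : ℕ) (H : X × X → ℝ) : Prop :=
  Measurable H ∧ (∀ q, |H q| ≤ 1) ∧ ∀ q, H ((TT T)^[W] q) = H q

/-- the distance of two points in terms of finitely many admissible functions -/
noncomputable def Gb (μ : Measure X) [IsFiniteMeasure μ] (Z : SA X) (T : X ≃ᵐ X) (n W : ℕ)
    (H : Fin n → X × X → ℝ) (q : X × X) : ℝ :=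
  ∑ l : Fin n, ∑ t ∈ range W,
    ∫ y, (H l (T^[t] q.1, T^[t] y) - H l (T^[t] q.2, T^[t] y)) ^ 2 ∂(kap μ Z q.1)

/-- almost periodic sets relative to `Z` -/
def NX (μ : Measure X) [IsFiniteMeasure μ] (T : X ≃ᵐ X) (Z : SA X) (A : Set X) : Prop :=
  MeasurableSet A ∧ ∀ δ : ℝ, 0 < δ → ∃ (n W : ℕ) (H : Fin n → X × X → ℝ) (ε : ℝ),
    0 < W ∧ (∀ l, Adm T W (H l)) ∧ 0 < ε ∧
    ∀ E : Set (X × X), MeasurableSet E → (TT T) ⁻¹' E = E →
      (∀ᵐ q ∂(JJ μ Z), q ∈ E → Gb μ Z T n W H q ≤ ε) →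
      (JJ μ Z).real (E ∩ {q | ¬ (q.1 ∈ A ↔ q.2 ∈ A)}) ≤ δ * (JJ μ Z).real E

/-- the next step of the tower -/
def nxt (μ : Measure X) [IsFiniteMeasure μ] (T : X ≃ᵐ X) (Z : SA X) : SA X :=
  ⟨MeasurableSpace.generateFrom {A | NX μ T Z A},
    MeasurableSpace.generateFrom_le fun _ hA => hA.1⟩

/-- the trivial σ-algebra -/
def triv (X : Type) [mX : MeasurableSpace X] : SA X := ⟨⊥, bot_le⟩

/-- the tower -/
def tow (μ : Measure X) [IsFiniteMeasure μ] (T : X ≃ᵐ X) : ℕ → SA X
  | 0 => triv X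
  | j + 1 => nxt μ T (tow μ T j)

theorem tow_zero (μ : Measure X) [IsFiniteMeasure μ] (T : X ≃ᵐ X) : tow μ T 0 = triv X := by
  rw [tow]

theorem tow_succ (μ : Measure X) [IsFiniteMeasure μ] (T : X ≃ᵐ X) (j : ℕ) :
    tow μ T (j + 1) = nxt μ T (tow μ T j) := by
  rw [tow]

/-- `n` independent points with distribution `κ z` -/
noncomputable def piK (κ : Kernel X X) [IsMarkovKernel κ] (n : ℕ) : Kernel X (Fin n → X) where
  toFun z := Measure.pi fun _ : Fin n => κ z
  measurable' := by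
    refine Measurable.measure_of_isPiSystem_of_isProbabilityMeasure
      (S := Set.pi Set.univ '' Set.pi Set.univ fun _ : Fin n => {s : Set X | MeasurableSet s})
      ?_ ?_ ?_
    · exact generateFrom_pi.symm
    · exact isPiSystem_pi
    · rintro _ ⟨s, hs, rfl⟩
      simp only [Measure.pi_pi]
      exact Finset.measurable_prod _ fun i _ => κ.measurable_coe (hs i (Set.mem_univ i))

instance (κ : Kernel X X) [IsMarkovKernel κ] (n : ℕ) : IsMarkovKernel (piK κ n) :=
  ⟨fun z => by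
    change IsProbabilityMeasure (Measure.pi fun _ : Fin n => κ z)
    infer_instance⟩

instance (μ : Measure X) [IsFiniteMeasure μ] (Z : SA X) : IsMarkovKernel (kap μ Z) := by
  unfold kap
  infer_instance

/-- the space of `n` references over a point -/
abbrev XN (X : Type) (n : ℕ) : Type := X × (Fin n → X)

/-- a point with `n` independent points in its fibre over `Z` -/
noncomputable def PN (μ : Measure X) [IsFiniteMeasure μ] (Z : SA X) (n : ℕ) : Measure (XN X n) :=
  μ ⊗ₘ piK (kap μ Z) n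

/-- the map on the references -/
def TN (T : X ≃ᵐ X) (n : ℕ) : XN X n ≃ᵐ XN X n :=
  T.prodCongr (MeasurableEquiv.piCongrRight fun _ : Fin n => T)

/-- the space of the points `(z, w)`, `n` references over `z` and a point over `w` -/
abbrev XX (X : Type) (n : ℕ) : Type := (X × X) × ((Fin n → X) × X)

/-- `(z, w)` with distribution `R`, `n` independent points over `z` and one over `w` -/
noncomputable def PX (μ : Measure X) [IsFiniteMeasure μ] (Z : SA X) (n : ℕ) (R : Measure (X × X)) :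
    Measure (XX X n) :=
  R ⊗ₘ ((Kernel.comap (piK (kap μ Z) n) Prod.fst measurable_fst) ×ₖ
    (Kernel.comap (kap μ Z) Prod.snd measurable_snd))

/-- the map on `XX` -/
def TX (T : X ≃ᵐ X) (n : ℕ) : XX X n ≃ᵐ XX X n :=
  (TT T).prodCongr ((MeasurableEquiv.piCongrRight fun _ : Fin n => T).prodCongr T)

/-- forget `w` and the last point -/
def prX (X : Type) (n : ℕ) (q : XX X n) : XN X n := (q.1.1, q.2.1)

/-- the convolution of an admissible function with a function -/
noncomputable def conv (μ : Measure X) [IsFiniteMeasure μ] (Z : SA X) (H : X × X → ℝ) (g : X → ℝ)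
    (x : X) : ℝ := ∫ y, H (x, y) * g y ∂(kap μ Z x)

end ker

/-- a factor map of measure preserving systems -/
def Fac {Ω Ω' : Type} [MeasurableSpace Ω] [MeasurableSpace Ω'] (P : Measure Ω) (T : Ω ≃ᵐ Ω)
    (P' : Measure Ω') (T' : Ω' ≃ᵐ Ω') (f : Ω → Ω') : Prop :=
  MeasurePreserving f P P' ∧ ∀ ω, f (T ω) = T' (f ω)

/-! ### tuples, mismatches, errors -/

section tup

variable {Ω : Type} [mΩ : MeasurableSpace Ω] {k : ℕ}

/-- a measurable tuple of signs -/
def Tup (y : Fin k → Ω → ℝ) : Prop := (∀ i, Measurable (y i)) ∧ ∀ i ω, y i ω = 1 ∨ y i ω = -1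

open Classical in
/-- mismatch -/
noncomputable def dl (y y' : Fin k → Ω → ℝ) (i : Fin k) (ω : Ω) : ℝ :=
  if y i ω = y' i ω then 0 else 1

/-- the product of the differences -/
def Dlt (β : Fin k → ℕ) : ℕ := ∏ i, ∏ j, if β i = β j then 1 else ((β i : ℤ) - β j).natAbs

/-- the conditional mismatch -/
noncomputable def Mis (P : Measure Ω) (m : MeasurableSpace Ω) (y y' : Fin k → Ω → ℝ) (ω : Ω) : ℝ :=
  ∑ i, (P[dl y y' i | m]) ω

/-- the relation of the tuple `y` for the prime `p` fails -/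
def bd (T : Ω ≃ᵐ Ω) (β : Fin k → ℕ) (σ : ℝ) (y : Fin k → Ω → ℝ) (p : ℕ) : Set Ω :=
  {ω | ∏ i, y i (T^[(p - 1) * β i] ω) ≠ σ}

/-- the asymptotic error of the relation on the set `A` -/
noncomputable def Lam (U : Ultrafilter ℕ) (W : ℕ) (P : Measure Ω) (T : Ω ≃ᵐ Ω) (β : Fin k → ℕ)
    (σ : ℝ) (y : Fin k → Ω → ℝ) (A : Set Ω) : ℝ :=
  ul U fun m => avgP W m fun p => P.real (A ∩ bd T β σ y p)

end tup

/-! ### the data -/

/-- the constant -/
noncomputable def κ₀ : ℝ := 1 / 10000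

/-- the data for the contradiction -/
structure Ctx where
  X : Type
  [mX : MeasurableSpace X]
  [sX : StandardBorelSpace X]
  μ : Measure X
  [pμ : IsProbabilityMeasure μ]
  T : X ≃ᵐ X
  erg : Ergodic T μ
  D : X → ℝ
  Dm : Measurable D
  Dv : ∀ x, D x = 1 ∨ D x = -1
  mr : ∀ W, 0 < W → μ[D | Inv T W] =ᵐ[μ] 0
  k : ℕ
  kpos : 0 < k
  Q : ℕ
  Qpos : 0 < Q
  Qev : Even Q
  β : Fin k → ℕ
  inj : Function.Injective β
  σ : ℝ
  σv : σ = 1 ∨ σ = -1
  Y : Set X
  Ym : MeasurableSet Y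
  Yinv : T^[Q] ⁻¹' Y = Y
  Ypos : 0 < μ.real Y
  V : Ultrafilter ℕ
  hV : (V : Filter ℕ) ≤ atTop
  U : ℕ → Ultrafilter ℕ
  hU : ∀ w, (U w : Filter ℕ) ≤ atTop
  rel : ∀ᶠ w in (V : Filter ℕ), ul (U w) (fun m => avgP (Q * w !) m fun p =>
    μ.real (Y ∩ {x | ∏ i, D (T^[p * β i] x) ≠ σ})) ≤ κ₀ * μ.real Y

namespace Ctx

variable (c : Ctx)

instance : MeasurableSpace c.X := c.mX
instance : StandardBorelSpace c.X := c.sX
instance : IsProbabilityMeasure c.μ := c.pμ

/-- the modulus -/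
def W (w : ℕ) : ℕ := c.Q * w !

/-- the tuple of a point -/
def Dt (i : Fin c.k) (x : c.X) : ℝ := c.D (c.T^[c.β i] x)

/-- the tuple of the first point of a pair -/
def D1 (i : Fin c.k) (q : c.X × c.X) : ℝ := c.Dt i q.1

/-- the tuple of the second point of a pair -/
def D2 (i : Fin c.k) (q : c.X × c.X) : ℝ := c.Dt i q.2

end Ctx

/-- the data with the density of the errors -/
structure CtxE extends Ctx where
  e : X → ℝ
  em : Measurable[Rt T] e
  e0 : ∀ x, 0 ≤ e x ∧ e x ≤ 1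
  eint : ∫ x in Y, e x ∂μ ≤ κ₀ * μ.real Y
  elim : ∀ ψ : X → ℝ, Measurable[Rt T] ψ → (∀ x, |ψ x| ≤ 1) →
    Tendsto (fun w => ul (U w) fun m => avgP (Q * w !) m fun p =>
      ∫ x in Y ∩ bd T β σ (fun i x => D (T^[β i] x)) p, ψ x ∂μ) (V : Filter ℕ)
      (𝓝 (∫ x in Y, ψ x * e x ∂μ))

namespace CtxE

variable (c : CtxE)

/-- the good points -/
def Xg : Set c.X := {x | x ∈ c.Y ∧ c.e x ≤ 4 * κ₀}

/-- closeness has positive mass in the relatively independent self-joining over `Z` -/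
def CP (Z : SA c.X) : Prop :=
  0 < (JJ c.μ Z).real {q | q.1 ∈ c.Xg ∧ q.2 ∈ c.Xg ∧
    Mis (JJ c.μ Z) (Rt (TT c.T)) c.D1 c.D2 q ≤ 1 / 2}

end CtxE

end Pool.Agent.H67.AG
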