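import Pool.Agent.H19.VT.SW
import Pool.Agent.H20.VT.LO
import Pool.Agent.H30.BV.GB
import Pool.Agent.H62.BV.IN
import Pool.Agent.H70.VT.SG
import Pool.Agent.H3.BV.C4
import Pool.Agent.H11.BV.DV
import Pool.Agent.H71.BV.CB
import Pool.Agent.H64.VT.SGP
import Pool.Agent.H59.VT.SGE
import Pool.Agent.H19.VT.SGA
import Pool.Agent.H90.VT.SGB
import Pool.Agent.H39.VT.SGC
import Pool.Agent.H65.VT.SGD
import Pool.Agent.H31.BV.TL
import Pool.Agent.H20.BV.PB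
import Pool.Agent.H33.BV.PR
import Pool.Agent.H4.BV.FT
import Pool.Agent.H20.BV.ZB

/-!
ABSOLUTE GAP (`MP_c59857_nt`): the Siegel-Walfisz theorem, with a short list of imports.
-/

set_option autoImplicit false

namespace Pool.Agent.H67.AG.SWL

open Pool.Agent
open Pool.Agent.H30.BV (T_CB T_PB T_ZB T_PR T_TL T_DV T_C4 T_FT T_IN)

theorem bCB : T_CB := H71.BV.cb
theorem bPB : T_PB := H20.BV.pb
theorem bZB : T_ZB := H20.BV.zb
theorem bPR : T_PR := H33.BV.pr bPB bZB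
theorem bTL : T_TL := H31.BV.tl
theorem bDV : T_DV := H11.BV.dv bPB
theorem bC4 : T_C4 := H3.BV.c4 bCB bPB bPR bTL bDV
theorem bFT : T_FT := H4.BV.ft
theorem bIN : T_IN := H62.BV.inn bFT
theorem bGB : Pool.Agent.H30.BV.T_GB := H30.BV.GB.gb bCB bPB

theorem sga : H47.VT.T_SGA := H19.VT.pf_SGA
theorem sgb : H47.VT.T_SGB := H90.VT.SGB.pf_SGB
theorem sgc : H47.VT.T_SGC := H39.VT.pf_SGC sga
theorem sgd : H47.VT.T_SGD := H65.VT.SGD.pf_SGD
theorem sge : H47.VT.T_SGE := H59.VT.SGE.pf_SGE bCB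
theorem sgp : H47.VT.T_SGP := H64.VT.SGP.pf_SGP sga sgb sgc sgd sge bCB
theorem sg : H47.VT.T_SG := H70.VT.SG.pf_SG sgp sge bDV bTL bCB
theorem lo : H47.VT.T_LO := H20.VT.LO.pf_LO sg bC4 bDV bCB
theorem sw : H47.VT.T_SW := H19.VT.pf_SW lo bGB bIN

end Pool.Agent.H67.AG.SWL
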