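import Pool.Agent.H67.AG.T7

set_option autoImplicit false

namespace Pool.Agent.H67.AG

theorem pf_CB (h0 : T_CB0) (h1 : T_CB1) (h2 : T_CB2) : T_CB := fun c Z hZ hcp =>
  h2 c Z hZ (h1 c Z hZ (h0 c Z hZ hcp))

end Pool.Agent.H67.AG
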